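import Pool.Agent.H37.DEN.TP

/-!
Row EXN (expansion in a Laurent series at a place) of the board for MP_ccfdad_ag.
-/

set_option autoImplicit false

open MvPolynomial Filter
open Pool.Agent.H18.HIT Pool.Agent.H8.TD Pool.Agent.H37.DEN
open Pool.Agent.H55.FFM (Vs)

namespace Pool.Agent.H43.DEN

/-- one discrete valuation -/
structure V1 (k : Type) {F : Type} [Field k] [Field F] [Algebra k F] (v : F → ℤ) : Prop where
  mul : ∀ a b, a ≠ 0 → b ≠ 0 → v (a * b) = v a + v b
  add : ∀ a b, a ≠ 0 → b ≠ 0 → a + b ≠ 0 → min (v a) (v b) ≤ v (a + b)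
  cst : ∀ (c : k), c ≠ 0 → v (algebraMap k F c) = 0
  res : ∀ a, a ≠ 0 → 0 ≤ v a → ∃ c : k, a = algebraMap k F c ∨ 0 < v (a - algebraMap k F c)

/-- value at least `n` -/
def Ge {F : Type} [Field F] (v : F → ℤ) (n : ℤ) (a : F) : Prop := a = 0 ∨ n ≤ v a

section

variable {k F : Type} [Field k] [Field F] [Algebra k F] {v : F → ℤ}

theorem Ge_add (h : V1 k v) {n : ℤ} {a b : F} (ha : Ge v n a) (hb : Ge v n b) :
    Ge v n (a + b) := by
  rcases ha with rfl | ha
  · rwa [zero_add]
  rcases hb with rfl | hb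
  · rw [add_zero]; exact Or.inr ha
  by_cases h0 : a = 0
  · rw [h0, zero_add]; exact Or.inr hb
  by_cases h1 : b = 0
  · rw [h1, add_zero]; exact Or.inr ha
  by_cases h2 : a + b = 0
  · exact Or.inl h2
  exact Or.inr ((le_min ha hb).trans (h.add a b h0 h1 h2))

theorem Ge_mul (h : V1 k v) {m n : ℤ} {a b : F} (ha : Ge v m a) (hb : Ge v n b) :
    Ge v (m + n) (a * b) := by
  by_cases h0 : a = 0
  · left; rw [h0, zero_mul]
  by_cases h1 : b = 0
  · left; rw [h1, mul_zero]
  right
  rw [h.mul a b h0 h1]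
  exact add_le_add (ha.resolve_left h0) (hb.resolve_left h1)

theorem Ge_cst (h : V1 k v) (c : k) : Ge v 0 (algebraMap k F c) := by
  by_cases hc : c = 0
  · left; rw [hc, map_zero]
  · right; rw [h.cst c hc]

theorem Ge_neg (h : V1 k v) {n : ℤ} {a : F} (ha : Ge v n a) : Ge v n (-a) := by
  have h1 : -a = algebraMap k F (-1) * a := by rw [map_neg, map_one, neg_one_mul]
  rw [h1]
  have := Ge_mul h (Ge_cst h (-1)) ha
  rwa [zero_add] at this

theorem Ge_sub (h : V1 k v) {n : ℤ} {a b : F} (ha : Ge v n a) (hb : Ge v n b) :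
    Ge v n (a - b) := by
  rw [sub_eq_add_neg]
  exact Ge_add h ha (Ge_neg h hb)

theorem Ge_mono {m n : ℤ} {a : F} (hmn : m ≤ n) (ha : Ge v n a) : Ge v m a :=
  ha.imp id fun h => hmn.trans h

theorem v_one (h : V1 k v) : v 1 = 0 := by
  have := h.cst 1 one_ne_zero
  rwa [map_one] at this

theorem v_inv (h : V1 k v) {a : F} (ha : a ≠ 0) : v a⁻¹ = - v a := by
  have h1 := h.mul a a⁻¹ ha (inv_ne_zero ha)
  rw [mul_inv_cancel₀ ha, v_one h] at h1
  linarith

theorem exr (h : V1 k v) {a : F} (ha : Ge v 0 a) : ∃ c : k, Ge v 1 (a - algebraMap k F c) := by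
  by_cases h0 : a = 0
  · exact ⟨0, Or.inl (by rw [h0, map_zero, sub_zero])⟩
  obtain ⟨c, hc | hc⟩ := h.res a h0 (ha.resolve_left h0)
  · exact ⟨c, Or.inl (by rw [hc, sub_self])⟩
  · exact ⟨c, Or.inr (by omega)⟩

theorem exr_unique (h : V1 k v) {a : F} {c c' : k} (h1 : Ge v 1 (a - algebraMap k F c))
    (h2 : Ge v 1 (a - algebraMap k F c')) : c = c' := by
  by_contra hne
  have h3 : Ge v 1 (algebraMap k F (c' - c)) := by
    have := Ge_sub h h1 h2
    have e : a - algebraMap k F c - (a - algebraMap k F c') = algebraMap k F (c' - c) := by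
      rw [map_sub]; ring
    rwa [e] at this
  have h4 : c' - c ≠ 0 := sub_ne_zero.2 fun e => hne e.symm
  rcases h3 with h3 | h3
  · rw [map_eq_zero] at h3
    exact h4 h3
  · rw [h.cst _ h4] at h3
    omega

/-- the valuation ring -/
def OO (h : V1 k v) : ValuationSubring F where
  carrier := {a | Ge v 0 a}
  mul_mem' := fun ha hb => by
    have := Ge_mul h ha hb
    rwa [zero_add] at this
  one_mem' := Or.inr (v_one h).ge
  add_mem' := fun ha hb => Ge_add h ha hb
  zero_mem' := Or.inl rfl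
  neg_mem' := fun ha => Ge_neg h ha
  mem_or_inv_mem' := fun a => by
    by_cases h0 : a = 0
    · left; exact Or.inl h0
    rcases le_total 0 (v a) with h1 | h1
    · left; exact Or.inr h1
    · right; right
      rw [v_inv h h0]
      omega

/-- the constants -/
def cc (h : V1 k v) (c : k) : OO h := ⟨algebraMap k F c, Ge_cst h c⟩

/-- the residue -/
noncomputable def rs (h : V1 k v) (a : OO h) : k := (exr h a.2).choose

theorem rs_spec (h : V1 k v) (a : OO h) : Ge v 1 ((a : F) - algebraMap k F (rs h a)) :=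
  (exr h a.2).choose_spec

theorem rs_eq (h : V1 k v) {a : OO h} {c : k} (hc : Ge v 1 ((a : F) - algebraMap k F c)) :
    rs h a = c := exr_unique h (rs_spec h a) hc

theorem rs_add (h : V1 k v) (a b : OO h) : rs h (a + b) = rs h a + rs h b := by
  refine rs_eq h ?_
  have := Ge_add h (rs_spec h a) (rs_spec h b)
  have e : ((a + b : OO h) : F) - algebraMap k F (rs h a + rs h b) =
      (a : F) - algebraMap k F (rs h a) + ((b : F) - algebraMap k F (rs h b)) := by
    rw [map_add]
    push_cast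
    ring
  rwa [e]

theorem rs_cc (h : V1 k v) (c : k) : rs h (cc h c) = c :=
  rs_eq h (Or.inl (sub_self _))

theorem rs_mul (h : V1 k v) (a b : OO h) : rs h (a * b) = rs h a * rs h b := by
  refine rs_eq h ?_
  have h1 := Ge_mul h a.2 (rs_spec h b)
  have h2 := Ge_mul h (rs_spec h a) (Ge_cst h (rs h b))
  rw [zero_add] at h1
  rw [add_zero] at h2
  have := Ge_add h h1 h2
  have e : ((a * b : OO h) : F) - algebraMap k F (rs h a * rs h b) =
      (a : F) * ((b : F) - algebraMap k F (rs h b)) +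
        ((a : F) - algebraMap k F (rs h a)) * algebraMap k F (rs h b) := by
    rw [map_mul]
    push_cast
    ring
  rwa [e]

variable {t : F}

/-- the shift -/
noncomputable def sh (h : V1 k v) (ht : t ≠ 0) (hv : v t = 1) (a : OO h) : OO h :=
  ⟨((a : F) - algebraMap k F (rs h a)) * t⁻¹, by
    have h1 : Ge v (-1) t⁻¹ := Or.inr (by rw [v_inv h ht, hv])
    have := Ge_mul h (rs_spec h a) h1
    exact this⟩

theorem sh_coe (h : V1 k v) (ht : t ≠ 0) (hv : v t = 1) (a : OO h) :
    (sh h ht hv a : F) = ((a : F) - algebraMap k F (rs h a)) * t⁻¹ := rfl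

theorem sh_add (h : V1 k v) (ht : t ≠ 0) (hv : v t = 1) (a b : OO h) :
    sh h ht hv (a + b) = sh h ht hv a + sh h ht hv b := by
  apply Subtype.ext
  rw [sh_coe, rs_add, map_add]
  push_cast
  rw [sh_coe, sh_coe]
  ring

theorem sh_mul (h : V1 k v) (ht : t ≠ 0) (hv : v t = 1) (a b : OO h) :
    sh h ht hv (a * b) = cc h (rs h a) * sh h ht hv b + sh h ht hv a * b := by
  apply Subtype.ext
  rw [sh_coe, rs_mul, map_mul]
  push_cast
  rw [sh_coe, sh_coe]
  show _ = algebraMap k F (rs h a) * _ + _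
  ring

theorem sh_cc (h : V1 k v) (ht : t ≠ 0) (hv : v t = 1) (c : k) : sh h ht hv (cc h c) = 0 := by
  apply Subtype.ext
  rw [sh_coe, rs_cc]
  show (algebraMap k F c - algebraMap k F c) * t⁻¹ = 0
  rw [sub_self, zero_mul]

theorem sh_zero (h : V1 k v) (ht : t ≠ 0) (hv : v t = 1) : sh h ht hv 0 = 0 := by
  have h1 : (0 : OO h) = cc h 0 := Subtype.ext (by show (0 : F) = algebraMap k F 0; simp)
  conv_lhs => rw [h1]
  exact sh_cc h ht hv 0

/-- the coefficients -/
noncomputable def cf (h : V1 k v) (ht : t ≠ 0) (hv : v t = 1) (n : ℕ) (a : OO h) : k :=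
  rs h ((sh h ht hv)^[n] a)

theorem cf_succ (h : V1 k v) (ht : t ≠ 0) (hv : v t = 1) (n : ℕ) (a : OO h) :
    cf h ht hv (n + 1) a = cf h ht hv n (sh h ht hv a) := by
  unfold cf
  rw [Function.iterate_succ_apply]

theorem cf_add (h : V1 k v) (ht : t ≠ 0) (hv : v t = 1) (n : ℕ) : ∀ a b : OO h,
    cf h ht hv n (a + b) = cf h ht hv n a + cf h ht hv n b := by
  induction n with
  | zero => intro a b; exact rs_add h a b
  | succ n ih =>
    intro a b
    rw [cf_succ, cf_succ, cf_succ, sh_add, ih]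

theorem cf_cmul (h : V1 k v) (ht : t ≠ 0) (hv : v t = 1) (n : ℕ) (c : k) : ∀ a : OO h,
    cf h ht hv n (cc h c * a) = c * cf h ht hv n a := by
  induction n with
  | zero =>
    intro a
    show rs h (cc h c * a) = c * rs h a
    rw [rs_mul, rs_cc]
  | succ n ih =>
    intro a
    rw [cf_succ, cf_succ, sh_mul, rs_cc, sh_cc, zero_mul, add_zero, ih]

theorem cf_mul (h : V1 k v) (ht : t ≠ 0) (hv : v t = 1) (n : ℕ) : ∀ a b : OO h,
    cf h ht hv n (a * b) =
      ∑ p ∈ Finset.HasAntidiagonal.antidiagonal n, cf h ht hv p.1 a * cf h ht hv p.2 b := by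
  induction n with
  | zero =>
    intro a b
    rw [Finset.Nat.antidiagonal_zero, Finset.sum_singleton]
    exact rs_mul h a b
  | succ n ih =>
    intro a b
    rw [cf_succ, sh_mul, cf_add, cf_cmul, ih, Finset.Nat.sum_antidiagonal_succ]
    simp only [cf_succ]
    rfl

/-- the expansion on the valuation ring -/
noncomputable def psi (h : V1 k v) (ht : t ≠ 0) (hv : v t = 1) : OO h →+* PowerSeries k where
  toFun a := PowerSeries.mk fun n => cf h ht hv n a
  map_one' := by
    ext n
    rw [PowerSeries.coeff_mk, PowerSeries.coeff_one]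
    have h1 : (1 : OO h) = cc h 1 := Subtype.ext (by show (1 : F) = algebraMap k F 1; simp)
    rw [h1]
    cases n with
    | zero => rw [if_pos rfl]; exact rs_cc h 1
    | succ n =>
      rw [if_neg (Nat.succ_ne_zero n), cf_succ, sh_cc]
      have h2 := cf_add h ht hv n 0 0
      rw [add_zero] at h2
      exact left_eq_add.1 h2
  map_mul' a b := by
    ext n
    rw [PowerSeries.coeff_mk, PowerSeries.coeff_mul, cf_mul]
    simp only [PowerSeries.coeff_mk]
  map_zero' := by
    ext n
    rw [PowerSeries.coeff_mk]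
    have h2 := cf_add h ht hv n 0 0
    rw [add_zero] at h2
    rw [left_eq_add.1 h2]
    rfl
  map_add' a b := by
    ext n
    rw [PowerSeries.coeff_mk, map_add, PowerSeries.coeff_mk, PowerSeries.coeff_mk, cf_add]

theorem psi_coeff (h : V1 k v) (ht : t ≠ 0) (hv : v t = 1) (a : OO h) (n : ℕ) :
    PowerSeries.coeff n (psi h ht hv a) = cf h ht hv n a := by
  show PowerSeries.coeff n (PowerSeries.mk fun n => cf h ht hv n a) = _
  rw [PowerSeries.coeff_mk]

theorem cf_order (h : V1 k v) (ht : t ≠ 0) (hv : v t = 1) (n : ℕ) : ∀ a : OO h, (a : F) ≠ 0 →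
    v a = n → (∀ i < n, cf h ht hv i a = 0) ∧ cf h ht hv n a ≠ 0 := by
  induction n with
  | zero =>
    intro a ha hva
    refine ⟨fun i hi => absurd hi (Nat.not_lt_zero i), fun h0 => ?_⟩
    have h1 := rs_spec h a
    have h2 : rs h a = 0 := h0
    rw [h2, map_zero, sub_zero] at h1
    have := h1.resolve_left ha
    rw [hva] at this
    norm_num at this
  | succ n ih =>
    intro a ha hva
    have hr : rs h a = 0 := by
      refine rs_eq h ?_
      rw [map_zero, sub_zero]
      right
      rw [hva]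
      push_cast
      omega
    have hsh : (sh h ht hv a : F) = (a : F) * t⁻¹ := by
      rw [sh_coe, hr, map_zero, sub_zero]
    have hne : (sh h ht hv a : F) ≠ 0 := by
      rw [hsh]
      exact mul_ne_zero ha (inv_ne_zero ht)
    have hvs : v (sh h ht hv a : F) = n := by
      rw [hsh, h.mul _ _ ha (inv_ne_zero ht), v_inv h ht, hva, hv]
      push_cast
      ring
    obtain ⟨h1, h2⟩ := ih (sh h ht hv a) hne hvs
    refine ⟨fun i hi => ?_, ?_⟩
    · cases i with
      | zero => exact hr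
      | succ i =>
        rw [cf_succ]
        exact h1 i (by omega)
    · rw [cf_succ]
      exact h2

/-- the Laurent expansion on the valuation ring -/
noncomputable def chi0 (h : V1 k v) (ht : t ≠ 0) (hv : v t = 1) : OO h →+* LaurentSeries k :=
  (HahnSeries.ofPowerSeries ℤ k).comp (psi h ht hv)

theorem chi0_coeff (h : V1 k v) (ht : t ≠ 0) (hv : v t = 1) (a : OO h) (n : ℕ) :
    (chi0 h ht hv a).coeff (n : ℤ) = cf h ht hv n a := by
  show (HahnSeries.ofPowerSeries ℤ k (psi h ht hv a)).coeff (n : ℤ) = _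
  rw [HahnSeries.ofPowerSeries_apply_coeff, psi_coeff]

theorem chi0_neg (h : V1 k v) (ht : t ≠ 0) (hv : v t = 1) (a : OO h) {n : ℤ} (hn : n < 0) :
    (chi0 h ht hv a).coeff n = 0 := by
  have := PowerSeries.coeff_coe (psi h ht hv a) n
  rw [if_pos hn] at this
  exact this

theorem chi0_order (h : V1 k v) (ht : t ≠ 0) (hv : v t = 1) {a : OO h} (ha : (a : F) ≠ 0) :
    chi0 h ht hv a ≠ 0 ∧ (chi0 h ht hv a).order = v a := by
  have hva : 0 ≤ v a := (show Ge v 0 (a : F) from a.2).resolve_left ha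
  obtain ⟨n, hn⟩ := Int.eq_ofNat_of_zero_le hva
  obtain ⟨h1, h2⟩ := cf_order h ht hv n a ha hn
  have hne : (chi0 h ht hv a).coeff (n : ℤ) ≠ 0 := by rw [chi0_coeff]; exact h2
  have h0 : chi0 h ht hv a ≠ 0 := fun e => hne (by rw [e]; rfl)
  refine ⟨h0, ?_⟩
  rw [hn]
  refine le_antisymm (HahnSeries.order_le_of_coeff_ne_zero hne) ?_
  by_contra hlt
  rw [not_le] at hlt
  have h3 := HahnSeries.coeff_order_eq_zero.not.2 h0
  rcases lt_or_ge (chi0 h ht hv a).order 0 with h4 | h4
  · exact h3 (chi0_neg h ht hv a h4)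
  · obtain ⟨i, hi⟩ := Int.eq_ofNat_of_zero_le h4
    rw [hi] at h3 hlt
    rw [chi0_coeff] at h3
    exact h3 (h1 i (by exact_mod_cast hlt))

theorem chi0_inj (h : V1 k v) (ht : t ≠ 0) (hv : v t = 1) :
    Function.Injective (chi0 h ht hv) := by
  rw [injective_iff_map_eq_zero]
  intro a ha
  by_contra hne
  have : (a : F) ≠ 0 := fun e => hne (Subtype.ext e)
  exact (chi0_order h ht hv this).1 ha

/-- Row EXN, for one valuation. -/
theorem EXN1 (h : V1 k v) (ht : t ≠ 0) (hv : v t = 1) : ∃ χ : F →ₐ[k] LaurentSeries k,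
    χ t = HahnSeries.single 1 1 ∧ ∀ a, a ≠ 0 → (χ a).order = v a := by
  set g : F →+* LaurentSeries k := IsFractionRing.lift (chi0_inj h ht hv) with hg
  have hgO : ∀ a : OO h, g (a : F) = chi0 h ht hv a := fun a =>
    IsFractionRing.lift_algebraMap (chi0_inj h ht hv) a
  have hcom : ∀ c : k, g (algebraMap k F c) = algebraMap k (LaurentSeries k) c := by
    intro c
    have h1 : g (algebraMap k F c) = chi0 h ht hv (cc h c) := hgO (cc h c)
    rw [h1]
    have h2 : psi h ht hv (cc h c) = PowerSeries.C c := by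
      ext n
      rw [psi_coeff, PowerSeries.coeff_C]
      cases n with
      | zero => rw [if_pos rfl]; exact rs_cc h c
      | succ n =>
        rw [if_neg (Nat.succ_ne_zero n), cf_succ, sh_cc]
        have h2 := cf_add h ht hv n 0 0
        rw [add_zero] at h2
        exact left_eq_add.1 h2
    show HahnSeries.ofPowerSeries ℤ k (psi h ht hv (cc h c)) = _
    rw [h2]
    rfl
  refine ⟨{ g with commutes' := hcom }, ?_, ?_⟩
  · show g t = _
    have htO : Ge v 0 t := Or.inr (by rw [hv]; norm_num)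
    have h1 : g t = chi0 h ht hv ⟨t, htO⟩ := hgO ⟨t, htO⟩
    rw [h1]
    have hr : rs h ⟨t, htO⟩ = 0 := by
      refine rs_eq h ?_
      right
      rw [map_zero, sub_zero]
      exact hv.ge
    have hs : sh h ht hv ⟨t, htO⟩ = cc h 1 := by
      apply Subtype.ext
      rw [sh_coe, hr]
      show (t - algebraMap k F 0) * t⁻¹ = algebraMap k F 1
      rw [map_zero, sub_zero, mul_inv_cancel₀ ht, map_one]
    have h2 : psi h ht hv ⟨t, htO⟩ = PowerSeries.X := by
      ext n
      rw [psi_coeff, PowerSeries.coeff_X]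
      rcases n with _ | _ | n
      · rw [if_neg (by norm_num)]; exact hr
      · rw [if_pos rfl, cf_succ, hs]; exact rs_cc h 1
      · rw [if_neg (by omega), cf_succ, cf_succ, hs, sh_cc]
        have h2 := cf_add h ht hv n 0 0
        rw [add_zero] at h2
        exact left_eq_add.1 h2
    show HahnSeries.ofPowerSeries ℤ k (psi h ht hv ⟨t, htO⟩) = _
    rw [h2, HahnSeries.ofPowerSeries_X]
  · intro a ha
    show (g a).order = v a
    have hord : ∀ b : F, b ≠ 0 → 0 ≤ v b → (g b).order = v b := by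
      intro b hb hvb
      have h1 : g b = chi0 h ht hv ⟨b, Or.inr hvb⟩ := hgO ⟨b, Or.inr hvb⟩
      rw [h1]
      exact (chi0_order h ht hv (a := ⟨b, Or.inr hvb⟩) hb).2
    rcases le_total 0 (v a) with h1 | h1
    · exact hord a ha h1
    · have h2 := hord a⁻¹ (inv_ne_zero ha) (by rw [v_inv h ha]; omega)
      have h3 : (g a * g a⁻¹).order = (g a).order + (g a⁻¹).order :=
        HahnSeries.order_mul ((map_ne_zero g).2 ha) ((map_ne_zero g).2 (inv_ne_zero ha))
      rw [← map_mul, mul_inv_cancel₀ ha, map_one, HahnSeries.order_one, h2, v_inv h ha] at h3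
      linarith

end

/-- Row EXN. -/
theorem pf_EXN : T_EXN := by
  intro k F S _ _ _ v hv s t ht hvt
  exact EXN1 (k := k) (v := v s) ⟨hv.mul s, hv.add s, hv.cst s, hv.res s⟩ ht hvt

end Pool.Agent.H43.DEN
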