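import Pool.Agent.H37.DEN.Targets

/-!
Row RNK (the degrees of the curves are not bounded) of the board for MP_ccfdad_ag.
-/

set_option autoImplicit false

open MvPolynomial Filter
open Pool.Agent.H18.HIT Pool.Agent.H8.TD Pool.Agent.H37.DEN

namespace Pool.Agent.H43.DEN

/-- The Casoratian criterion. -/
theorem casoratian {L : Type} [Field L] (τ : L →+* L) (r : ℕ) : ∀ f : Fin r → L,
    (Matrix.of fun i l : Fin r => τ^[(i : ℕ)] (f l)).det = 0 →
    ∃ c : Fin r → L, c ≠ 0 ∧ (∀ l, τ (c l) = c l) ∧ ∑ l, c l * f l = 0 := by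
  induction r with
  | zero =>
    intro f h
    rw [Matrix.det_isEmpty] at h
    exact absurd h one_ne_zero
  | succ r ih =>
    intro f h
    set f' : Fin r → L := fun l => f l.castSucc with hf'
    by_cases h' : (Matrix.of fun i l : Fin r => τ^[(i : ℕ)] (f' l)).det = 0
    · obtain ⟨c, hc, hfix, hsum⟩ := ih f' h'
      refine ⟨Fin.snoc (α := fun _ => L) c 0, ?_, ?_, ?_⟩
      · intro h0
        apply hc
        funext l
        have := congrFun h0 l.castSucc
        rwa [Fin.snoc_castSucc] at this
      · intro l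
        refine Fin.lastCases ?_ (fun l => ?_) l
        · rw [Fin.snoc_last, map_zero]
        · rw [Fin.snoc_castSucc]; exact hfix l
      · rw [Fin.sum_univ_castSucc]
        simp only [Fin.snoc_castSucc, Fin.snoc_last, zero_mul, add_zero]
        exact hsum
    · obtain ⟨α, hα, hmul⟩ := Matrix.exists_mulVec_eq_zero_iff.2 h
      have hrow : ∀ i : Fin (r + 1), ∑ l, τ^[(i : ℕ)] (f l) * α l = 0 := fun i => congrFun hmul i
      have hlast : α (Fin.last r) ≠ 0 := by
        intro h0
        apply hα
        have h1 : (Matrix.of fun i l : Fin r => τ^[(i : ℕ)] (f' l)).mulVec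
            (fun l => α l.castSucc) = 0 := by
          funext i
          have := hrow i.castSucc
          rw [Fin.sum_univ_castSucc, h0, mul_zero, add_zero] at this
          exact this
        have h2 := Matrix.eq_zero_of_mulVec_eq_zero h' h1
        funext l
        refine Fin.lastCases ?_ (fun l => ?_) l
        · exact h0
        · exact congrFun h2 l
      set γ : Fin (r + 1) → L := fun l => α l * (α (Fin.last r))⁻¹ with hγ
      have hγlast : γ (Fin.last r) = 1 := mul_inv_cancel₀ hlast
      have hrow' : ∀ i : Fin (r + 1), ∑ l, τ^[(i : ℕ)] (f l) * γ l = 0 := by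
        intro i
        have : ∑ l, τ^[(i : ℕ)] (f l) * γ l =
            (∑ l, τ^[(i : ℕ)] (f l) * α l) * (α (Fin.last r))⁻¹ := by
          rw [Finset.sum_mul]
          exact Finset.sum_congr rfl fun l _ => by rw [hγ]; ring
        rw [this, hrow i, zero_mul]
      have hβ : (fun l : Fin r => τ (γ l.castSucc) - γ l.castSucc) = 0 := by
        have hdet : (Matrix.of fun i l : Fin r => τ^[(i : ℕ) + 1] (f' l)).det ≠ 0 := by
          have h1 : (Matrix.of fun i l : Fin r => τ^[(i : ℕ) + 1] (f' l)) =
              τ.mapMatrix (Matrix.of fun i l : Fin r => τ^[(i : ℕ)] (f' l)) := by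
            ext i l
            show τ^[(i : ℕ) + 1] (f' l) = τ (τ^[(i : ℕ)] (f' l))
            rw [Function.iterate_succ_apply']
          rw [h1, ← RingHom.map_det]
          exact (map_ne_zero τ).2 h'
        refine Matrix.eq_zero_of_mulVec_eq_zero hdet ?_
        funext i
        have e1 := hrow' i.succ
        have e2 := congrArg τ (hrow' i.castSucc)
        rw [map_sum, map_zero] at e2
        show ∑ l : Fin r, τ^[(i : ℕ) + 1] (f' l) * (τ (γ l.castSucc) - γ l.castSucc) = 0
        have e3 : ∑ l, τ^[(i : ℕ) + 1] (f l) * (τ (γ l) - γ l) = 0 := by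
          have : ∑ l, τ^[(i : ℕ) + 1] (f l) * (τ (γ l) - γ l) =
              ∑ l, τ (τ^[((i.castSucc : Fin (r + 1)) : ℕ)] (f l) * γ l) -
                ∑ l, τ^[((i.succ : Fin (r + 1)) : ℕ)] (f l) * γ l := by
            rw [← Finset.sum_sub_distrib]
            refine Finset.sum_congr rfl fun l _ => ?_
            rw [map_mul τ (τ^[((i.castSucc : Fin (r + 1)) : ℕ)] (f l)) (γ l), Fin.val_succ,
              Fin.val_castSucc, Function.iterate_succ_apply']
            ring
          rw [this, e1, e2, sub_zero]
        rw [Fin.sum_univ_castSucc, hγlast, map_one, sub_self, mul_zero, add_zero] at e3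
        exact e3
      refine ⟨γ, ?_, ?_, ?_⟩
      · intro h0
        have := congrFun h0 (Fin.last r)
        rw [hγlast] at this
        exact one_ne_zero this
      · intro l
        refine Fin.lastCases ?_ (fun l => ?_) l
        · rw [hγlast, map_one]
        · exact sub_eq_zero.1 (congrFun hβ l)
      · have := hrow' 0
        rw [← this]
        refine Finset.sum_congr rfl fun l _ => ?_
        rw [Fin.val_zero, Function.iterate_zero_apply, mul_comm]

theorem RNK_zero {k : Type} [Field k] {T : Tup 3 k} {e m : ℕ} (C : Cv T e m) (i : Fin m)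
    {q : Po 3 k} (h : C.ch i q = 0) : C.ch i (aeval T q) = 0 := by
  ext n
  have hp := C.pow i q
  by_cases hn : (e : ℤ) ∣ n
  · obtain ⟨n', rfl⟩ := hn
    rw [(hp n').1, h]
    rfl
  · exact (hp n).2 hn

/-- Row RNK. -/
theorem pf_RNK (hRTD : T_RTD) (hSPC : T_SPC) : T_RNK := by
  intro k _ T τ e m S U C hF D hD
  have hm := hF.one
  set i : Fin m := ⟨0, hm⟩ with hi
  set q : ℕ := 6 * (D + 1) with hq
  obtain ⟨hfin, hrank⟩ := hRTD 3 k q
  set V := restrictTotalDegree (Fin 3) k q with hV
  set r := Module.finrank k V with hr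
  have hqr : q * D + 1 < r := by
    rw [hrank]
    have h1 : (((q + 3 + 1 - 3 : ℕ) ^ 3 : ℕ) : ℚ) / (Nat.factorial 3 : ℚ) ≤
        ((q + 3).choose 3 : ℚ) := by
      have := Nat.pow_le_choose (α := ℚ) 3 (q + 3)
      exact_mod_cast this
    have h2 : (q + 1) ^ 3 ≤ 6 * (q + 3).choose 3 := by
      have e1 : q + 3 + 1 - 3 = q + 1 := by omega
      rw [e1] at h1
      have e2 : (Nat.factorial 3 : ℚ) = 6 := by norm_num [Nat.factorial]
      rw [e2, div_le_iff₀ (by norm_num)] at h1
      have : (((q + 1) ^ 3 : ℕ) : ℚ) ≤ ((6 * (q + 3).choose 3 : ℕ) : ℚ) := by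
        push_cast at h1 ⊢
        linarith
      exact_mod_cast this
    have h3 : 6 * (q * D + 1) < (q + 1) ^ 3 := by
      rw [hq]
      nlinarith [Nat.zero_le D, Nat.zero_le (D * D), Nat.zero_le (D * D * D)]
    omega
  set b := Module.finBasis k V with hb
  set M : Fin r → Po 3 k := fun l => (b l : Po 3 k) with hM
  have hMdeg : ∀ l, (M l).totalDegree ≤ q := fun l =>
    (mem_restrictTotalDegree (Fin 3) q (M l)).1 (b l).2
  have hMind : LinearIndependent k M :=
    b.linearIndependent.map' V.subtype (Submodule.ker_subtype V)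
  set A : Po 3 k →ₐ[k] Po 3 k := aeval T with hA
  -- the determinant vanishes
  have hdet : (Matrix.of fun (j l : Fin r) => (A^[(j : ℕ)] (M l))).det = 0 := by
    by_contra hne
    have h1 := hF.gen _ hne
    obtain ⟨s, hs1, hs2⟩ := (h1.and hD).exists
    obtain ⟨c, hc, hch⟩ := hSPC k T e m (C s) i q r M hMdeg
      (lt_of_le_of_lt (by gcongr) hqr)
    apply hs1 i
    have hit : ∀ n : ℕ, (C s).ch i (A^[n] (∑ l, MvPolynomial.C (c l) * M l)) = 0 := by
      intro n
      induction n with
      | zero => exact hch
      | succ n ih =>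
        rw [Function.iterate_succ_apply']
        exact RNK_zero (C s) i ih
    have hexp : ∀ n : ℕ, A^[n] (∑ l, MvPolynomial.C (c l) * M l) =
        ∑ l, MvPolynomial.C (c l) * A^[n] (M l) := by
      intro n
      induction n with
      | zero => rfl
      | succ n ih =>
        rw [Function.iterate_succ_apply', ih, map_sum]
        refine Finset.sum_congr rfl fun l _ => ?_
        rw [map_mul, Function.iterate_succ_apply']
        congr 1
        exact AlgHom.commutes A (c l)
    have h2 : (C s).ch i (Matrix.of fun (j l : Fin r) => (A^[(j : ℕ)] (M l))).det =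
        ((C s).ch i).toRingHom (Matrix.of fun (j l : Fin r) => (A^[(j : ℕ)] (M l))).det := rfl
    rw [h2, RingHom.map_det]
    refine Matrix.exists_mulVec_eq_zero_iff.1 ⟨fun l => (C s).ch i (MvPolynomial.C (c l)), ?_, ?_⟩
    · intro h0
      apply hc
      funext l
      have h3 := congrFun h0 l
      have h4 : (C s).ch i (MvPolynomial.C (c l)) = algebraMap k (LaurentSeries k) (c l) :=
        AlgHom.commutes _ _
      have h5 : algebraMap k (LaurentSeries k) (c l) = 0 := by rw [← h4]; exact h3
      rwa [map_eq_zero] at h5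
    · funext j
      show ∑ l, (C s).ch i (A^[(j : ℕ)] (M l)) * (C s).ch i (MvPolynomial.C (c l)) = 0
      have h3 := hit j
      rw [hexp, map_sum] at h3
      rw [← h3]
      refine Finset.sum_congr rfl fun l _ => ?_
      rw [map_mul, mul_comm]
  -- in the field
  have hτι : ∀ (n : ℕ) (p : Po 3 k), τ.toRingHom^[n] (ι p) = ι (A^[n] p) := by
    intro n p
    induction n with
    | zero => rfl
    | succ n ih =>
      rw [Function.iterate_succ_apply', Function.iterate_succ_apply', ih]
      exact hF.fld.map _
  have hdet2 : (Matrix.of fun (j l : Fin r) => (τ.toRingHom^[(j : ℕ)] (ι (M l)))).det = 0 := by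
    have h1 : (Matrix.of fun (j l : Fin r) => (τ.toRingHom^[(j : ℕ)] (ι (M l)))) =
        (algebraMap (Po 3 k) (K3 k)).mapMatrix
          (Matrix.of fun (j l : Fin r) => (A^[(j : ℕ)] (M l))) := by
      ext j l
      exact hτι j (M l)
    rw [h1, ← RingHom.map_det, hdet, map_zero]
  obtain ⟨c, hc, hfix, hsum⟩ := casoratian τ.toRingHom r (fun l => ι (M l)) hdet2
  have hk : ∀ l, ∃ a : k, c l = algebraMap k (K3 k) a := fun l => hF.fld.inv (c l) (hfix l)
  choose a ha using hk
  have hz : ∑ l, a l • M l = 0 := by
    have h1 : algebraMap (Po 3 k) (K3 k) (∑ l, a l • M l) = 0 := by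
      rw [map_sum, ← hsum]
      refine Finset.sum_congr rfl fun l _ => ?_
      rw [ha l, MvPolynomial.smul_eq_C_mul, map_mul]
      congr 1
    exact (map_eq_zero_iff _ (IsFractionRing.injective (Po 3 k) (K3 k))).1 h1
  have h0 := Fintype.linearIndependent_iff.1 hMind a hz
  apply hc
  funext l
  rw [ha l, h0 l, map_zero]
  rfl

end Pool.Agent.H43.DEN
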